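import Pool.Agent.H950.EX.Scal

/-!
# The law of the exploration path is Hölder continuous in the rectangle and in the mesh

Critical bond percolation on `δ ℤ²` in a rectangle `R = (-A, B) × (0, H)`, with the counterclockwise
boundary arc from `a = t + i H` to `b = 0` wired and the other one dual-wired.  The exploration path
is a random curve modulo reparametrisation, with the distance `inf_φ sup_s |γ (s) - γ' (φ (s))|`.
There is a universal `γ > 0` and, for rectangles whose sizes and distances are between `κ` and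
`1 / κ`, a constant `C` such that, uniformly in the meshes `δ, δ' > 0`:

* for the same configuration of the lattice, the paths of `R` (mesh `δ`) and `R'` (mesh `δ'`) are
  within `C ε ^ γ` of each other up to an event of probability `C ε ^ γ`, where
  `ε = |R - R'| + |δ - δ'| / δ' + δ'`; so the laws are within `C ε ^ γ` in the Lévy-Prokhorov
  distance.

Consequences for the scaling limit:

* all discretisations of `R` and of its marked points have the same limits;
* each sequence of meshes has a subsequence along which the laws converge for all rectangles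
  simultaneously, and each such family of limits is Hölder continuous in the rectangle;
* if the laws converge along one sequence of meshes with ratios of consecutive terms tending to `1`
  (as `1 / n`), for a dense set of the rectangles of height `1`, then they converge for all
  rectangles as `δ → 0`, and the limits are covariant under scaling;
* the set of the limit points of each law is compact and connected; if there are only countably many
  families of limits, then the laws converge for all rectangles as `δ → 0`.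

Definitions: `Rect`, `Rect.dm`, `pos`, `pl` (`H984R4.NP.Model`); `Dm`, `Dm.edges`, `Dm.walk`,
`Dm.len` (`H984R4.NP.Defs`); `cdist`, `Curve` (`H342R3.Lim`); `crv` (`H950.EX.Seq`), `lawM`, `law`
(`H950.EX.Law`), `gap`, `Good`, `dev` (`H950.EX.Rct`), `scale`, `dil`, `LimPts` (`H950.EX.Scal`).
-/

set_option autoImplicit false

namespace Pool.Agent.Results.MP_fe58d8_pr.DomainContinuity

open H974 H984N MeasureTheory Filter Topology Pool.Agent.H950.EX
open H342L (cdist Curve)

/-- The law of the exploration path in `R` at mesh `δ`. -/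
noncomputable def pathLaw (R : Rect) (δ : ℝ) : ProbabilityMeasure Curve := law (R.dm δ) δ

/-- The exploration path in `R` at mesh `δ` for the open edges `F` of the lattice. -/
noncomputable def path (R : Rect) (δ : ℝ) (F : Finset Edg) : C(unitInterval, ℂ) :=
  crv (R.dm δ) δ (F ∩ (R.dm δ).edges)

open Classical in
/-- The proportion of the configurations of the edges of `S` with the property `A`. -/
noncomputable def prob (S : Finset Edg) (A : Finset Edg → Prop) : ℝ :=
  ((S.powerset.filter A).card : ℝ) / 2 ^ S.card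

/-- Lévy-Prokhorov distance. -/
noncomputable def lp (μ ν : ProbabilityMeasure Curve) : ℝ :=
  levyProkhorovDist (μ : Measure Curve) (ν : Measure Curve)

/-- Sequences of meshes. -/
def Meshes (δ : ℕ → ℝ) : Prop := (∀ i, 0 < δ i) ∧ Tendsto δ atTop (𝓝 0)

/-- The laws converge to `ν` along `δ`, for all rectangles. -/
def IsLimit (δ : ℕ → ℝ) (ν : Rect → ProbabilityMeasure Curve) : Prop :=
  Meshes δ ∧ ∀ R, Tendsto (fun i => pathLaw R (δ i)) atTop (𝓝 (ν R))

/-- The lattice rectangles `D i` with meshes `δ i` are discretisations of `R`. -/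
structure Discretise (R : Rect) (δ : ℕ → ℝ) (D : ℕ → Dm) : Prop where
  l : Tendsto (fun i => δ i * (D i).l) atTop (𝓝 (-R.A))
  r : Tendsto (fun i => δ i * (D i).r) atTop (𝓝 R.B)
  h : Tendsto (fun i => δ i * (D i).h) atTop (𝓝 R.H)
  t : Tendsto (fun i => δ i * (D i).t) atTop (𝓝 R.t)

theorem prob_eq (S : Finset Edg) (A : Finset Edg → Prop) : prob S A = H12S.PQ (1/2) S A := by
  classical
  have h := H984N.Ex_half S (fun F => ind (A F))
  unfold H984N.E at h
  unfold prob H12S.PQ Pr
  rw [h]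
  have h2 : ∑ F ∈ S.powerset, ind (A F) = ((S.powerset.filter A).card : ℝ) := by
    rw [Finset.card_filter]
    push_cast
    apply Finset.sum_congr rfl
    intro F _
    by_cases hA : A F
    · rw [ind_of hA, if_pos hA]
    · rw [ind_not_of hA, if_neg hA]
  rw [h2, one_div, inv_pow]
  ring

theorem family {δ : ℕ → ℝ} (hδ : Meshes δ) : ∃ φ : ℕ → ℕ, StrictMono φ ∧
    ∃ ν : Rect → ProbabilityMeasure Curve, IsLimit (δ ∘ φ) ν := by
  obtain ⟨φ, hφ, h⟩ := fam hδ.1 hδ.2
  choose y hy using h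
  refine ⟨φ, hφ, fun R => (y R).toMeasure, ⟨fun i => hδ.1 _, hδ.2.comp hφ.tendsto_atTop⟩,
    fun R => ?_⟩
  exact tendsto_iff.1 (hy R)

theorem limPts_family {R : Rect} {μ : ProbabilityMeasure Curve} (h : μ ∈ LimPts R) :
    ∃ (δ : ℕ → ℝ) (ν : Rect → ProbabilityMeasure Curve), IsLimit δ ν ∧ ν R = μ := by
  rw [limPts_eq] at h
  obtain ⟨y, hy, rfl⟩ := h
  have h1 : ∀ i : ℕ, ∃ δ : ℝ, 0 < δ ∧ δ < 1 / ((i:ℝ) + 1) ∧
      dist (fR R δ) y < 1 / ((i:ℝ) + 1) :=
    fun i => clu_iff.1 hy _ (by positivity) _ (by positivity)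
  choose δ h2 h3 h4 using h1
  have h5 : Tendsto δ atTop (𝓝 0) := squeeze_zero (fun i => (h2 i).le) (fun i => (h3 i).le)
    tendsto_one_div_add_atTop_nhds_zero_nat
  obtain ⟨φ, hφ, ν, hν⟩ := family ⟨h2, h5⟩
  refine ⟨δ ∘ φ, ν, hν, ?_⟩
  have h6 : Tendsto (fun i => fR R (δ (φ i))) atTop (𝓝 y) := by
    rw [tendsto_iff_dist_tendsto_zero]
    exact squeeze_zero (fun i => dist_nonneg) (fun i => (h4 (φ i)).le)
      (tendsto_one_div_add_atTop_nhds_zero_nat.comp hφ.tendsto_atTop)
  have h7 : Tendsto (fun i => pathLaw R (δ (φ i))) atTop (𝓝 y.toMeasure) :=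
    (LevyProkhorov.continuous_toMeasure_probabilityMeasure.tendsto _).comp h6
  exact tendsto_nhds_unique (hν.2 R) h7

theorem of_countable (h : {ν : Rect → ProbabilityMeasure Curve | ∃ δ, IsLimit δ ν}.Countable) :
    ∃ ν : Rect → ProbabilityMeasure Curve, ∀ R, Tendsto (pathLaw R) (𝓝[>] 0) (𝓝 (ν R)) := by
  have h1 : ∀ R, ∃ μ, Tendsto (pathLaw R) (𝓝[>] 0) (𝓝 μ) := by
    intro R
    apply limPts_dich R
    refine (h.image (fun ν => ν R)).mono ?_
    intro μ hμ
    obtain ⟨δ, ν, h2, h3⟩ := limPts_family hμ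
    exact ⟨ν, ⟨δ, h2⟩, h3⟩
  choose ν hν using h1
  exact ⟨ν, hν⟩

theorem reduction {δ : ℕ → ℝ} (hδ : Meshes δ)
    (hr : Tendsto (fun i => δ (i + 1) / δ i) atTop (𝓝 1)) {T : Set Rect}
    (hT : ∀ R : Rect, R.H = 1 → ∀ ε > 0, ∃ R' ∈ T, gap R R' < ε)
    (hc : ∀ R ∈ T, ∃ μ, Tendsto (fun i => pathLaw R (δ i)) atTop (𝓝 μ)) :
    ∃ ν : Rect → ProbabilityMeasure Curve, (∀ R, Tendsto (pathLaw R) (𝓝[>] 0) (𝓝 (ν R))) ∧
      ∀ (c : ℝ) (hc : 0 < c) (R : Rect),
        ν (scale c hc R) = (ν R).map (dil_cont c).measurable.aemeasurable := by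
  have h1 : ∀ R : Rect, R.H = 1 → ∃ μ, Tendsto (pathLaw R) (𝓝[>] 0) (𝓝 μ) := by
    intro R hR
    obtain ⟨y, hy⟩ := full hδ.1 hδ.2 hr R (fun ε hε => by
      obtain ⟨R', h2, h3⟩ := hT R hR ε hε
      obtain ⟨μ, hμ⟩ := hc R' h2
      exact ⟨R', h3, _, tendsto_iff.2 hμ⟩)
    exact ⟨y.toMeasure, (LevyProkhorov.continuous_toMeasure_probabilityMeasure.tendsto _).comp hy⟩
  have h2 : ∀ R : Rect, ∃ μ, Tendsto (pathLaw R) (𝓝[>] 0) (𝓝 μ) := by
    intro R
    have hH := R.hH
    obtain ⟨μ, hμ⟩ := h1 (scale (1 / R.H) (by positivity) R) (by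
      show 1 / R.H * R.H = 1
      field_simp)
    refine ⟨_, (lim_scale hH hμ).congr ?_⟩
    intro δ
    have : scale R.H hH (scale (1 / R.H) (by positivity) R) = R := by
      obtain ⟨A, B, H, t, a, b, c, d, e⟩ := R
      unfold scale
      simp only [Rect.mk.injEq]
      have hH' : H ≠ 0 := (show 0 < H from c).ne'
      refine ⟨?_, ?_, ?_, ?_⟩ <;> field_simp
    rw [this]
    rfl
  choose ν hν using h2
  refine ⟨ν, hν, fun c hc R => ?_⟩
  exact tendsto_nhds_unique (hν (scale c hc R)) (lim_scale hc (hν R))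

/-- **The law of the exploration path in a rectangle is Hölder continuous in the rectangle, in the
marked point and in the logarithm of the mesh, uniformly in the mesh.** -/
theorem result : ∃ γ : ℝ, 0 < γ ∧ γ ≤ 1 ∧
    (∀ κ : ℝ, 0 < κ → κ ≤ 1 → ∃ C : ℝ, 0 < C ∧
      (∀ (R R' : Rect) (δ δ' : ℝ), Good κ R → Good κ R' → 0 < δ → 0 < δ' →
        -- the coupling
        (∀ S : Finset Edg, (R.dm δ).edges ⊆ S → (R'.dm δ').edges ⊆ S →
          prob S (fun F => C * dev R δ R' δ' ^ γ < cdist (path R δ F) (path R' δ' F)) ≤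
            C * dev R δ R' δ' ^ γ) ∧
        -- the laws
        lp (pathLaw R δ) (pathLaw R' δ') ≤ C * dev R δ R' δ' ^ γ) ∧
      -- the limits
      (∀ (δ : ℕ → ℝ) (ν : Rect → ProbabilityMeasure Curve), IsLimit δ ν → ∀ R R' : Rect,
        Good κ R → Good κ R' → lp (ν R) (ν R') ≤ C * gap R R' ^ γ)) ∧
    -- all discretisations have the same limits
    (∀ (R : Rect) (δ : ℕ → ℝ) (D : ℕ → Dm), Meshes δ → Discretise R δ D →
      Tendsto (fun i => lp (law (D i) (δ i)) (pathLaw R (δ i))) atTop (𝓝 0)) ∧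
    -- simultaneous subsequential limits
    (∀ δ : ℕ → ℝ, Meshes δ → ∃ φ : ℕ → ℕ, StrictMono φ ∧
      ∃ ν : Rect → ProbabilityMeasure Curve, IsLimit (δ ∘ φ) ν) ∧
    -- convergence along slowly varying meshes, for a dense set of rectangles
    (∀ δ : ℕ → ℝ, Meshes δ → Tendsto (fun i => δ (i + 1) / δ i) atTop (𝓝 1) → ∀ T : Set Rect,
      (∀ R : Rect, R.H = 1 → ∀ ε > 0, ∃ R' ∈ T, gap R R' < ε) →
      (∀ R ∈ T, ∃ μ, Tendsto (fun i => pathLaw R (δ i)) atTop (𝓝 μ)) →
      ∃ ν : Rect → ProbabilityMeasure Curve, (∀ R, Tendsto (pathLaw R) (𝓝[>] 0) (𝓝 (ν R))) ∧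
        ∀ (c : ℝ) (hc : 0 < c) (R : Rect),
          ν (scale c hc R) = (ν R).map (dil_cont c).measurable.aemeasurable) ∧
    -- limit points
    (∀ R : Rect, IsCompact (LimPts R) ∧ IsConnected (LimPts R)) ∧
    ({ν : Rect → ProbabilityMeasure Curve | ∃ δ, IsLimit δ ν}.Countable →
      ∃ ν : Rect → ProbabilityMeasure Curve, ∀ R, Tendsto (pathLaw R) (𝓝[>] 0) (𝓝 (ν R))) := by
  obtain ⟨γ, hγ, hγ1, h⟩ := rect_lp
  refine ⟨γ, hγ, hγ1, ?_, ?_, fun δ hδ => family hδ, ?_, fun R => ⟨limPts_compact R, limPts_conn R⟩,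
    of_countable⟩
  · intro κ hκ hκ1
    obtain ⟨C, hC, h'⟩ := h κ hκ hκ1
    refine ⟨C, hC, ?_, ?_⟩
    · intro R R' δ δ' hR hR' hδ hδ'
      obtain ⟨h1, h2⟩ := h' R R' δ δ' hR hR' hδ hδ'
      refine ⟨fun S hS hS' => ?_, h2⟩
      rw [prob_eq]
      have h3 := h1 S hS hS'
      simp only [not_le] at h3
      exact h3
    · intro δ ν hν R R' hR hR'
      exact holder_lim (l := atTop) hγ (Eventually.of_forall hν.1.1) hν.1.2
        (tendsto_iff.2 (hν.2 R)) (tendsto_iff.2 (hν.2 R'))
        (fun x hx => (h' R R' x x hR hR' hx hx).2)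
  · intro R δ D hδ hD
    exact all_disc R hδ.1 hδ.2 hD.l hD.r hD.h hD.t
  · intro δ hδ hr T hT hc
    exact reduction hδ hr hT hc

end Pool.Agent.Results.MP_fe58d8_pr.DomainContinuity
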