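import Pool.Agent.H966.EX.Lim
import Pool.Graph.R_pool_sql_team_seeded_3dad9d7b.NH38.Fork.UG

/-!
Critical bond percolation on `ℤ²` (`p = 1/2`): the exploration path in the plane cut along a
half-infinite rectangle (thick slit) of width `γ`, from the left corner of the slit to infinity, with
the left bank open and the rest of the boundary (ledge, right bank) dual-open. Which of the right bank,
the line `X = -α` to the left of the slit and the line `X = γ + β` to the right of it does the path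
hit first? We compute the law of this exit from the strip `-α < X < γ + β`, for all
`α, γ, β > 0`: exactly on the lattice, in the scaling limit, and for every scaling limit of the path
as a random curve (no convergence is assumed: all subsequential limits have the same exit law). The
values are those of SLE(6) (conformal invariance and Cardy's formula). So all scaling limits share
the joint law of the two extents of the curve at its first visit of the right bank, and the law of
the extent on one side at the first visit of any line on the other side.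

Coordinates: the vertex `(u,v)` of `ℤ²` at mesh `δ` sits at `X + iY`, `X = δ (u - v)`,
`Y = δ (u + v)` (rotation by 45 degrees). The column of a point is `u - v`, its height `u + v`.
-/

namespace Pool.Agent.Results.MP_fe58d8_pr.ExplorationExitLaw

open MeasureTheory Filter Topology Set

/-- edges of `ℤ²`: `(u,v,false)` joins `(u,v)` and `(u+1,v)`; `(u,v,true)` joins `(u,v)` and
`(u,v+1)`. -/
abbrev Edge := ℤ × ℤ × Bool

/-- configurations (`true` = open) -/
abbrev Conf := Edge → Bool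

/-- `x` and `y` are the two ends of an open edge -/
def OpenAdj (ω : Conf) (x y : ℤ × ℤ) : Prop :=
  (y = (x.1 + 1, x.2) ∧ ω (x.1, x.2, false) = true) ∨
  (x = (y.1 + 1, y.2) ∧ ω (y.1, y.2, false) = true) ∨
  (y = (x.1, x.2 + 1) ∧ ω (x.1, x.2, true) = true) ∨
  (x = (y.1, y.2 + 1) ∧ ω (y.1, y.2, true) = true)

/-- bond percolation at `p = 1/2`: independent fair coins on the edges -/
noncomputable def perc : Measure Conf :=
  Measure.infinitePi (fun _ : Edge => (PMF.uniformOfFintype Bool).toMeasure)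

/-! ## The exploration path -/

/-- A state `(x, d)` of the exploration path: the path passes next to the vertex `x`, which is on
its right, and looks at the edge which leaves `x` in the direction `d`. -/
abbrev State := (ℤ × ℤ) × Fin 4

/-- the four directions, counterclockwise: `0` = right, `1` = up, `2` = left, `3` = down -/
def vec (d : Fin 4) : ℤ × ℤ :=
  match d with
  | 0 => (1, 0)
  | 1 => (0, 1)
  | 2 => (-1, 0)
  | 3 => (0, -1)

/-- the slit: columns `[0,m]`, heights `≥ 0` -/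
def InSlit (m : ℕ) (x : ℤ × ℤ) : Prop := 0 ≤ x.1 - x.2 ∧ x.1 - x.2 ≤ m ∧ 0 ≤ x.1 + x.2

/-- the left bank of the slit: the vertices `(k,k)`, `k ≥ 0` (column `0`, height `≥ 0`) -/
def LeftBank (x : ℤ × ℤ) : Prop := x.1 = x.2 ∧ 0 ≤ x.1

/-- the right bank of the slit: column `m`, height `≥ 0` -/
def RightBank (m : ℕ) (x : ℤ × ℤ) : Prop := x.1 - x.2 = m ∧ 0 ≤ x.1 + x.2

/-- the edge `{x,y}` is open and is not an edge of the slit -/
def SAdj (m : ℕ) (ω : Conf) (x y : ℤ × ℤ) : Prop := OpenAdj ω x y ∧ ¬ (InSlit m x ∧ InSlit m y)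

open Classical in
/-- One step of the exploration path in the configuration `ω`: if the edge it looks at is open and
not in the slit, the path goes along this edge and turns counterclockwise (`d + 1`); otherwise it
turns clockwise around the vertex (`d + 3 = d - 1`). The left bank is open: at a vertex of the left
bank, when the path looks at the slit (`d = 0`), it goes on to the next vertex `x + (1,1)` of the left
bank. -/
noncomputable def step (m : ℕ) (ω : Conf) (s : State) : State :=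
  if LeftBank s.1 ∧ s.2 = 0 then (s.1 + (1, 1), 2)
  else if SAdj m ω s.1 (s.1 + vec s.2) then (s.1 + vec s.2, s.2 + 1)
  else (s.1, s.2 + 3)

/-- the exploration path: it starts at the left corner of the slit, at the lowest vertex `(0,0)` of
the left bank, looking down -/
noncomputable def path (m : ℕ) (ω : Conf) (n : ℕ) : State := (step m ω)^[n] ((0, 0), 3)

/-- the column of the dual vertex (centre of a face) on the left of the path, which is
`x + (1/2,1/2)`, `x + (-1/2,1/2)`, `x + (-1/2,-1/2)`, `x + (1/2,-1/2)` for `d = 0, 1, 2, 3` -/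
def leftCol (s : State) : ℤ :=
  match s.2 with
  | 0 => s.1.1 - s.1.2
  | 1 => s.1.1 - s.1.2 - 1
  | 2 => s.1.1 - s.1.2
  | 3 => s.1.1 - s.1.2 + 1

/-- the column of the vertex on the right of the path -/
def rightCol (s : State) : ℤ := s.1.1 - s.1.2

/-- the left side of the path reaches the column `-a` before its right side reaches the right bank or
the column `m + b` -/
def ExitLeft (a m b : ℕ) : Set Conf :=
  {ω | ∃ n, leftCol (path m ω n) ≤ -(a : ℤ) ∧
    ∀ j ≤ n, ¬ RightBank m (path m ω j).1 ∧ rightCol (path m ω j) < (m : ℤ) + b}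

/-- the right side of the path reaches the right bank before the column `m + b`, and before the left
side reaches the column `-a` -/
def ExitBank (a m b : ℕ) : Set Conf :=
  {ω | ∃ n, RightBank m (path m ω n).1 ∧
    ∀ j ≤ n, -(a : ℤ) < leftCol (path m ω j) ∧ rightCol (path m ω j) < (m : ℤ) + b}

/-- the right side of the path reaches the column `m + b` before the right bank, and before the left
side reaches the column `-a` -/
def ExitRight (a m b : ℕ) : Set Conf :=
  {ω | ∃ n, (m : ℤ) + b ≤ rightCol (path m ω n) ∧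
    ∀ j ≤ n, -(a : ℤ) < leftCol (path m ω j) ∧ ¬ RightBank m (path m ω j).1}

/-! ## The exact formulas, Cardy's function, the conformal map -/

/-- Cardy's function: the normalised primitive of `(t(1-t))^(-2/3)` -/
noncomputable def cardy (x : ℝ) : ℝ :=
  (∫ t in (0:ℝ)..x, (t*(1-t))^(-(2:ℝ)/3)) / ∫ t in (0:ℝ)..1, (t*(1-t))^(-(2:ℝ)/3)

/-- the polynomials `s_n` -/
noncomputable def s : ℕ → Polynomial ℚ
  | 0 => 2
  | 1 => 3
  | n+2 => Polynomial.C (1 / (3*(n:ℚ)+5)) *
      (Polynomial.C (6*(n:ℚ)+9) * (if Even n then 1 + Polynomial.X else 1) * s (n+1) -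
        Polynomial.C (3*(n:ℚ)+4) * s n)

/-- the numbers `k_n` -/
noncomputable def k (n : ℕ) : ℚ := ∏ i ∈ Finset.range n, ((i:ℚ) + 4/3) / (i + 2/3)

/-- the polynomials `d_n`, `n ≥ 1` -/
noncomputable def d (n : ℕ) : Polynomial ℚ :=
  Polynomial.C (1 / (k (n+1) - k (n-1))) * (s (n+1) - s (n-1))

/-- the weights of the formula for the left line, `N` = width of the strip (odd) -/
noncomputable def wt (N j : ℕ) : ℚ :=
  1/3 * (∏ i ∈ Finset.range ((N-1)/2), (((i:ℚ) + 1/2) * (i + 5/3) / ((i + 5/6) * (i + 2)))) *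
  ∏ i ∈ Finset.range j, (4 * (((i:ℚ) + 1/3) * (i + 2/3)) / (((N:ℚ) - 2 - 2*i) * (N + 3 + 2*i)))

/-- the weights of the formula for the right bank, `N` = width of the strip minus one (even) -/
noncomputable def wt' (N j : ℕ) : ℚ :=
  1/27 * (∏ i ∈ Finset.range ((N-4)/2), ((2*(i:ℚ) + 3) * (3*i + 10) / ((i + 4) * (6*i + 13)))) *
  ∏ i ∈ Finset.range j, (4 * ((i:ℚ) + 2/3) * (i + 4/3) / (((N:ℚ) - 3 - 2*i) * (N + 4 + 2*i)))

/-- the exact probability of `ExitBank ∪ ExitRight` (`a` odd, `m`, `b` even) -/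
noncomputable def reach (a m b : ℕ) : ℚ :=
  ∑ j ∈ Finset.range ((a+b+1)/2), (s a * d b).coeff j * wt (a+m+b) j

/-- the exact probability of `ExitBank` (`a` odd, `m`, `b` even) -/
noncomputable def bank (a m b : ℕ) : ℚ :=
  ∑ j ∈ Finset.range ((a+b-1)/2), (s a * s (b-1)).coeff j * wt' (a+m+b-1) j

/-- the strip `-α < X < γ + β` without the slit `{0 ≤ X ≤ γ, Y ≥ 0}` -/
def Dom (α γ β : ℝ) : Set ℂ := {w | -α < w.re ∧ w.re < γ + β ∧ (0 ≤ w.re → w.re ≤ γ → w.im < 0)}

/-- `f` is an orientation reversing conformal map of the upper half-plane onto the strip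
without the slit,
with the boundary correspondence: left wall, inner wall of the left arm, left corner of the slit,
ledge (bottom of the slit), right corner of the slit, inner wall of the right arm, right wall =
`(-∞,0)`, `(0,x)`, `x`, `(x,x')`, `x'`, `(x',1)`, `(1,∞)` (`0`, `1` and `∞` correspond to the ends
of the left arm, of the right arm and of the lower strip). -/
structure Uniformizes (α γ β x x' : ℝ) (f : ℂ → ℂ) : Prop where
  /-- the complex conjugate of `f` is holomorphic in the upper half-plane -/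
  holo : DifferentiableOn ℂ (fun z => (starRingEnd ℂ) (f z)) {z | 0 < z.im}
  /-- `f` is a bijection of the upper half-plane onto the strip without the slit -/
  bij : BijOn f {z | 0 < z.im} (Dom α γ β)
  /-- `f` is continuous up to the boundary (without `0` and `1`) -/
  cont : ContinuousOn f {z : ℂ | 0 ≤ z.im ∧ z ≠ 0 ∧ z ≠ 1}
  /-- `(-∞,0)` is mapped to the left wall -/
  leftWall : BijOn (fun t : ℝ => f t) (Iio 0) {w | w.re = -α}
  /-- `(0,x)` is mapped to the inner wall of the left arm -/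
  innerWall : BijOn (fun t : ℝ => f t) (Ioo 0 x) {w | w.re = 0 ∧ 0 < w.im}
  /-- `x` is mapped to the left corner -/
  corner : f (x : ℂ) = 0
  /-- `(x,x')` is mapped to the ledge -/
  ledge : BijOn (fun t : ℝ => f t) (Ioo x x') {w | w.im = 0 ∧ 0 < w.re ∧ w.re < γ}
  /-- `x'` is mapped to the right corner -/
  corner' : f (x' : ℂ) = (γ : ℂ)
  /-- `(x',1)` is mapped to the inner wall of the right arm -/
  innerWall' : BijOn (fun t : ℝ => f t) (Ioo x' 1) {w | w.re = γ ∧ 0 < w.im}
  /-- `(1,∞)` is mapped to the right wall -/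
  rightWall : BijOn (fun t : ℝ => f t) (Ioi 1) {w | w.re = γ + β}

/-! ## Scaling limits -/

/-- the position of the path at mesh `δ` (of the vertex on its right) -/
noncomputable def point (δ : ℝ) (s : State) : ℂ :=
  ⟨δ * ((s.1.1 : ℝ) - s.1.2), δ * ((s.1.1 : ℝ) + s.1.2)⟩

/-- The exploration paths of the configurations `ω n` at the slits with `m n` columns, at mesh `δ n`,
parametrised by the nondecreasing functions `k n` of `[0,∞)` onto `ℕ`, converge to the continuous
curve `Γ`, uniformly on bounded intervals of time, and `Γ` is unbounded. -/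
structure Converges (δ : ℕ → ℝ) (m : ℕ → ℕ) (ω : ℕ → Conf) (k : ℕ → ℝ → ℕ) (Γ : ℝ → ℂ) :
    Prop where
  /-- the path starts at time `0` -/
  zero : ∀ n, k n 0 = 0
  /-- the path is run forward -/
  mono : ∀ n s t, 0 ≤ s → s ≤ t → k n s ≤ k n t
  /-- the whole path is run -/
  surj : ∀ n N, ∃ t, 0 ≤ t ∧ k n t = N
  /-- the limit is continuous -/
  cont : ContinuousOn Γ (Ici 0)
  /-- uniform convergence on `[0,T]` -/
  unif : ∀ T : ℝ, TendstoUniformlyOn (fun n t => point (δ n) (path (m n) (ω n) (k n t))) Γ atTop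
    (Icc 0 T)
  /-- the limit is unbounded -/
  unb : ∀ R : ℝ, ∃ t, 0 ≤ t ∧ R ≤ ‖Γ t‖

/-- The random curve `Γ` on the probability space `(Ω, P)` is a (subsequential) scaling limit of the
exploration path at the slit of width `γ`: there are meshes `δ n → 0`, slits with `m n` columns,
`δ n * m n → γ`, and critical percolation configurations `W n` on `Ω` whose exploration paths,
suitably parametrised, converge to `Γ` almost surely. (By Skorokhod's theorem every limit in law has
such a representation.) -/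
def ScalingLimit (γ : ℝ) {Ω : Type} [MeasurableSpace Ω] (P : Measure Ω) (Γ : Ω → ℝ → ℂ) : Prop :=
  ∃ (δ : ℕ → ℝ) (m : ℕ → ℕ) (W : ℕ → Ω → Conf) (k : ℕ → Ω → ℝ → ℕ),
    (∀ n, 0 < δ n) ∧ Tendsto δ atTop (𝓝 0) ∧ Tendsto (fun n => δ n * m n) atTop (𝓝 γ) ∧
    (∀ n, Measurable (W n)) ∧ (∀ n, P.map (W n) = perc) ∧
    ∀ᵐ p ∂P, Converges δ m (fun n => W n p) (fun n => k n p) (Γ p)

/-- the curve `Γ` hits `A`, and has not visited `B` by then -/
def HitsFirst (Γ : ℝ → ℂ) (A B : Set ℂ) : Prop :=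
  ∃ t, 0 ≤ t ∧ Γ t ∈ A ∧ ∀ s, 0 ≤ s → s ≤ t → Γ s ∉ B

/-- the right bank of the slit -/
def Bank (γ : ℝ) : Set ℂ := {w | w.re = γ ∧ 0 ≤ w.im}

/-- the points on or to the left of the line `X = c` -/
def LeftOf (c : ℝ) : Set ℂ := {w | w.re ≤ c}

/-- the points on or to the right of the line `X = c` -/
def RightOf (c : ℝ) : Set ℂ := {w | c ≤ w.re}

theorem s_eq (n : ℕ) : s n = Pool.Agent.NH38.Fork.sv n := by
  unfold Pool.Agent.NH38.Fork.sv
  induction n using Nat.twoStepInduction with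
  | zero =>
    rw [s, Pool.Agent.NH38.Fork.pv]
    exact (map_ofNat Polynomial.C 2).symm
  | one =>
    rw [s, Pool.Agent.NH38.Fork.pv]
    exact (map_ofNat Polynomial.C 3).symm
  | more n ih1 ih2 =>
    rw [s, ih1, ih2, Pool.Agent.NH38.Fork.pv]

theorem d_eq (n : ℕ) : d (n+1) = Pool.Agent.H965.K3.dv (n+1) := by
  rw [d, Pool.Agent.H965.K3.dv, s_eq, s_eq]
  rfl

open Pool.Agent.H966 in
theorem hitBank_iff (α γ β : ℝ) (G : ℝ → ℂ) :
    HitsFirst G (Bank γ) (LeftOf (-α) ∪ RightOf (γ + β)) ↔ EX.HitBank α γ β G := by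
  constructor
  · rintro ⟨t, ht, h1, h2⟩
    refine ⟨t, ht, h1, fun s hs => ?_⟩
    have h3 := h2 s hs.1 hs.2
    simp only [mem_union, LeftOf, RightOf, mem_ofPred_eq, not_or, not_le] at h3
    exact h3
  · rintro ⟨t, ht, h1, h2⟩
    refine ⟨t, ht, h1, fun s hs hs' => ?_⟩
    have h3 := h2 s ⟨hs, hs'⟩
    simp only [mem_union, LeftOf, RightOf, mem_ofPred_eq, not_or, not_le]
    exact h3

open Pool.Agent.H966 in
theorem hitLeft_iff (α γ β : ℝ) (G : ℝ → ℂ) :
    HitsFirst G (LeftOf (-α)) (Bank γ ∪ RightOf (γ + β)) ↔ EX.HitLeft α γ β G := by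
  constructor
  · rintro ⟨t, ht, h1, h2⟩
    refine ⟨t, ht, h1, fun s hs => ?_⟩
    have h3 := h2 s hs.1 hs.2
    rw [mem_union, not_or] at h3
    exact ⟨h3.1, not_le.1 h3.2⟩
  · rintro ⟨t, ht, h1, h2⟩
    refine ⟨t, ht, h1, fun s hs hs' => ?_⟩
    have h3 := h2 s ⟨hs, hs'⟩
    rw [mem_union, not_or]
    exact ⟨h3.1, not_le.2 h3.2⟩

open Pool.Agent.H966 in
theorem hitRight_iff (α γ β : ℝ) (G : ℝ → ℂ) :
    HitsFirst G (RightOf (γ + β)) (Bank γ ∪ LeftOf (-α)) ↔ EX.HitRight α γ β G := by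
  constructor
  · rintro ⟨t, ht, h1, h2⟩
    refine ⟨t, ht, h1, fun s hs => ?_⟩
    have h3 := h2 s hs.1 hs.2
    rw [mem_union, not_or] at h3
    exact ⟨h3.1, not_le.1 h3.2⟩
  · rintro ⟨t, ht, h1, h2⟩
    refine ⟨t, ht, h1, fun s hs hs' => ?_⟩
    have h3 := h2 s ⟨hs, hs'⟩
    rw [mem_union, not_or]
    exact ⟨h3.1, not_le.2 h3.2⟩

open Pool.Agent.H966 in
theorem limit_of {γ : ℝ} {Ω : Type} [MeasurableSpace Ω] {P : Measure Ω} {Γ : Ω → ℝ → ℂ}
    (h : ScalingLimit γ P Γ) : EX.Limit γ P Γ := by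
  obtain ⟨δ, m, W, k, h1, h2, h3, h4, h5, h6⟩ := h
  refine ⟨δ, m, W, k, h1, h2, h3, h4, h5, ?_⟩
  filter_upwards [h6] with p hp
  exact ⟨hp.zero, hp.mono, hp.surj, hp.cont, hp.unif, hp.unb⟩

theorem bank_exact {a m b : ℕ} (ha : Odd a) (hm : Even m) (hm2 : 2 ≤ m) (hb : Even b)
    (hb2 : 2 ≤ b) : perc.real (ExitBank a m b) = ((bank a m b : ℚ) : ℝ) := by
  obtain ⟨c, rfl⟩ : ∃ c, b = c + 1 := ⟨b - 1, by omega⟩
  have hc : Odd c := by
    rcases Nat.even_or_odd c with h | h
    · exfalso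
      have h1 := h.add_one
      exact (Nat.not_even_iff_odd.2 h1) hb
    · exact h
  have h0 : perc.real (ExitBank a m (c+1)) =
      Pool.Agent.H988R2.Perc.perc.real (Pool.Agent.H966.T1.FCross1 a m c) :=
    Pool.Agent.H966.EX.bank_val ha.pos (by omega) hc.pos
  obtain ⟨l, hl⟩ := hm
  obtain ⟨k, rfl⟩ : ∃ k, m = 2*k+2 := ⟨l - 1, by omega⟩
  have h1 := Pool.Agent.H966.T1.t_Exact a k c ha hc
  rw [← Pool.Agent.H966.T1.G.cross_eq ha] at h1
  have h2 : a + c + 2 + 2*k = a + (2*k+2) + (c+1) - 1 := by omega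
  rw [h2] at h1
  rw [h0]
  refine h1.trans ?_
  congr 1
  unfold Pool.Agent.H966.T1.FT bank
  have h3 : (a + (c+1) - 1) / 2 = (a + c)/2 := by congr 1
  rw [h3]
  refine Finset.sum_congr rfl fun j _ => ?_
  rw [s_eq, s_eq, Nat.add_sub_cancel]
  congr 1
  unfold Pool.Agent.H966.T1.nj Pool.Agent.H966.T1.M1 wt'
  ring

theorem reach_exact {a m b : ℕ} (ha : Odd a) (hm : Even m) (hm2 : 2 ≤ m) (hb : Even b)
    (hb2 : 2 ≤ b) : perc.real (ExitLeft a m b) = 1 - ((reach a m b : ℚ) : ℝ) := by
  have h0 : perc.real (ExitLeft a m b) =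
      1 - Pool.Agent.H988R2.Perc.perc.real (Pool.Agent.H966.EX.FCrossU a m b) :=
    Pool.Agent.H966.EX.left_val ha.pos (by omega) (by omega)
  rw [h0]
  congr 1
  obtain ⟨l, hl⟩ := hm
  obtain ⟨k', rfl⟩ : ∃ k', m = 2*k'+2 := ⟨l - 1, by omega⟩
  have e0 : 2*k'+2 = 2*(k'+1) := by ring
  have h1 := Pool.Agent.H965.K3.t3_Exact b k' a hb hb2 ha
  rw [e0] at h1 ⊢
  rw [Pool.Agent.H966.EX.mirror_eq]
  obtain ⟨r, hr⟩ := hb
  obtain ⟨t, ht⟩ := ha
  have h2 : b + a + 2 + 2*k' = 2*(r + t + 1 + k') + 1 := by omega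
  have h3 : a + 2*(k'+1) + b = 2*(r + t + 1 + k') + 1 := by omega
  rw [h2] at h1
  refine h1.trans ?_
  congr 1
  unfold Pool.Agent.H965.K3.FK reach
  rw [Finset.sum_div, h3, add_comm b a]
  refine Finset.sum_congr rfl fun j hj => ?_
  have hj' : j ≤ r + t + 1 + k' := by
    rw [Finset.mem_range] at hj; omega
  obtain ⟨b', rfl⟩ : ∃ b', b = b' + 1 := ⟨b - 1, by omega⟩
  rw [d_eq, s_eq, mul_comm (Pool.Agent.NH38.Fork.sv a)]
  have h4 := Pool.Agent.NH38.Fork.t_MJ (r + t + 1 + k') j hj'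
  unfold Pool.Agent.H965.K3.cd Pool.Agent.NH38.Fork.mj wt
  have h5 : (2*(r + t + 1 + k') + 1) + 2*j + 1 = (2*(r + t + 1 + k')+1) + 2*j + 1 := rfl
  rw [h5, h4]
  unfold Pool.Agent.NH38.Fork.M0
  have h6 : (2*(r + t + 1 + k') + 1 - 1)/2 = r + t + 1 + k' := by omega
  rw [h6]
  have h7 : ∀ i : ℕ, (4 * (((i:ℚ) + 1/3) * (i + 2/3)) /
      ((((2*(r + t + 1 + k') + 1 : ℕ) : ℚ) - 2 - 2*i) *
        (((2*(r + t + 1 + k') + 1 : ℕ) : ℚ) + 3 + 2*i))) =
      4 * (((i:ℚ) + 1/3) * (i + 2/3) /
        ((2*((r + t + 1 + k' : ℕ) : ℚ) - 1 - 2*i) * (2*((r + t + 1 + k' : ℕ) : ℚ) + 4 + 2*i))) := by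
    intro i
    push_cast
    rw [mul_div_assoc]
    congr 2
    ring
  rw [Finset.prod_congr rfl fun i _ => h7 i, Finset.prod_mul_distrib, Finset.prod_const,
    Finset.card_range]
  ring

open Pool.Agent.H966 in
/-- The exit law of the exploration path.
(1) For all `a, m, b ≥ 1` the three events are measurable and disjoint and cover the whole space up to
a null set.
(2) Their exact probabilities for odd `a` and even `m`, `b`.
(3) For all `α, γ, β > 0` there are `0 < x < x' < 1`, given by `x x' = (α/(α+γ+β))²`,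
`(1-x)(1-x') = (β/(α+γ+β))²`, and a conformal map of the upper half-plane onto the strip without the
slit with the boundary correspondence of `Uniformizes`, such that
* (scaling limit, all widths) the probabilities of the three exits tend to `1 - cardy (x/x')`,
  `cardy (x(1-x')/(x'(1-x)))` and to their difference;
* (scaling limits of the path) for every scaling limit `Γ` of the exploration path at the slit of width
  `γ`, almost surely one of the three exits occurs, the three events are measurable up to null sets,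
  and they have these probabilities. -/
theorem result :
    (∀ a m b : ℕ, 1 ≤ a → 1 ≤ m → 1 ≤ b →
      MeasurableSet (ExitLeft a m b) ∧ MeasurableSet (ExitBank a m b) ∧
      MeasurableSet (ExitRight a m b) ∧ Disjoint (ExitLeft a m b) (ExitBank a m b) ∧
      Disjoint (ExitLeft a m b) (ExitRight a m b) ∧ Disjoint (ExitBank a m b) (ExitRight a m b) ∧
      ∀ᵐ ω ∂perc, ω ∈ ExitLeft a m b ∪ (ExitBank a m b ∪ ExitRight a m b)) ∧
    (∀ a m b : ℕ, Odd a → Even m → 2 ≤ m → Even b → 2 ≤ b →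
      perc.real (ExitLeft a m b) = 1 - ((reach a m b : ℚ) : ℝ) ∧
      perc.real (ExitBank a m b) = ((bank a m b : ℚ) : ℝ) ∧
      perc.real (ExitRight a m b) = ((reach a m b : ℚ) : ℝ) - ((bank a m b : ℚ) : ℝ)) ∧
    (∀ α γ β : ℝ, 0 < α → 0 < γ → 0 < β → ∃ x x' : ℝ, 0 < x ∧ x < x' ∧ x' < 1 ∧
      x * x' = (α / (α + γ + β))^2 ∧ (1 - x) * (1 - x') = (β / (α + γ + β))^2 ∧
      (∃ f : ℂ → ℂ, Uniformizes α γ β x x' f) ∧
      (∀ (δ : ℕ → ℝ) (a m b : ℕ → ℕ), (∀ n, 0 < δ n) → Tendsto δ atTop (𝓝 0) →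
        Tendsto (fun n => δ n * a n) atTop (𝓝 α) → Tendsto (fun n => δ n * m n) atTop (𝓝 γ) →
        Tendsto (fun n => δ n * b n) atTop (𝓝 β) →
        Tendsto (fun n => perc.real (ExitLeft (a n) (m n) (b n))) atTop
          (𝓝 (1 - cardy (x / x'))) ∧
        Tendsto (fun n => perc.real (ExitBank (a n) (m n) (b n))) atTop
          (𝓝 (cardy (x * (1 - x') / (x' * (1 - x))))) ∧
        Tendsto (fun n => perc.real (ExitRight (a n) (m n) (b n))) atTop
          (𝓝 (cardy (x / x') - cardy (x * (1 - x') / (x' * (1 - x)))))) ∧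
      (∀ (Ω : Type) [MeasurableSpace Ω] (P : Measure Ω) [IsProbabilityMeasure P]
        (Γ : Ω → ℝ → ℂ), ScalingLimit γ P Γ →
        (∀ᵐ p ∂P, HitsFirst (Γ p) (LeftOf (-α)) (Bank γ ∪ RightOf (γ + β)) ∨
          HitsFirst (Γ p) (Bank γ) (LeftOf (-α) ∪ RightOf (γ + β)) ∨
          HitsFirst (Γ p) (RightOf (γ + β)) (Bank γ ∪ LeftOf (-α))) ∧
        NullMeasurableSet {p | HitsFirst (Γ p) (LeftOf (-α)) (Bank γ ∪ RightOf (γ + β))} P ∧
        NullMeasurableSet {p | HitsFirst (Γ p) (Bank γ) (LeftOf (-α) ∪ RightOf (γ + β))} P ∧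
        NullMeasurableSet {p | HitsFirst (Γ p) (RightOf (γ + β)) (Bank γ ∪ LeftOf (-α))} P ∧
        P.real {p | HitsFirst (Γ p) (LeftOf (-α)) (Bank γ ∪ RightOf (γ + β))} =
          1 - cardy (x / x') ∧
        P.real {p | HitsFirst (Γ p) (Bank γ) (LeftOf (-α) ∪ RightOf (γ + β))} =
          cardy (x * (1 - x') / (x' * (1 - x))) ∧
        P.real {p | HitsFirst (Γ p) (RightOf (γ + β)) (Bank γ ∪ LeftOf (-α))} =
          cardy (x / x') - cardy (x * (1 - x') / (x' * (1 - x))))) := by
  have hone : ∀ a m b : ℕ, 1 ≤ a → 1 ≤ m → 1 ≤ b → perc.real (ExitLeft a m b) +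
      (perc.real (ExitBank a m b) + perc.real (ExitRight a m b)) = 1 :=
    fun a m b ha hm hb => EX.sum_one ha hm hb
  refine ⟨fun a m b ha hm hb => ⟨EX.meas_left a m b, EX.meas_bank a m b, EX.meas_right a m b,
    EX.left_bank_disj a m b, EX.left_right_disj a m b, EX.bank_right_disj a m b,
    EX.ae_cover ha hm hb⟩, fun a m b ha hm hm2 hb hb2 => ?_, fun α γ β hα hγ hβ => ?_⟩
  · have h1 := reach_exact ha hm hm2 hb hb2
    have h2 := bank_exact ha hm hm2 hb hb2
    have h3 := hone a m b ha.pos (by omega) (by omega)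
    exact ⟨h1, h2, by linarith⟩
  · obtain ⟨h1, h2, h3, h4, h5⟩ := EX.X_facts hα hγ hβ
    refine ⟨EX.X1 α γ β, EX.X2 α γ β, h1, h2, h3, h4, h5, ?_, ?_, ?_⟩
    · obtain ⟨f, hf⟩ := Pool.Agent.NH38.Fork.t_UG α γ β hα hγ hβ
      exact ⟨f, ⟨hf.holo, hf.bij, hf.cont, hf.leftWall, hf.innerWall, hf.corner, hf.ledge,
        hf.corner', hf.innerWall', hf.rightWall⟩⟩
    · intro δ a m b hδ hδ0 ha hm hb
      have hp : EX.Par δ a m b α γ β := ⟨hδ, hδ0, ha, hm, hb⟩
      exact ⟨EX.lim_left hα hγ hβ hp, EX.lim_bank hα hγ hβ hp, EX.lim_right hα hγ hβ hp⟩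
    · intro Ω _ P _ Γ hΓ
      have hL := limit_of hΓ
      obtain ⟨l1, l2, l3⟩ := EX.limit_law hγ hL hα hβ
      obtain ⟨n1, n2, n3⟩ := EX.null_meas hγ hL hα hβ
      simp only [hitBank_iff, hitLeft_iff, hitRight_iff]
      refine ⟨?_, n2, n1, n3, l2, l1, l3⟩
      filter_upwards [EX.ae_hit hγ hL hα hβ] with p hp
      tauto

end Pool.Agent.Results.MP_fe58d8_pr.ExplorationExitLaw
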