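import Pool.Agent.H953.Nst26

/-!
# Off-critical nesting exponents of bond percolation on `ℤ²`

Bond percolation on the square lattice with any parameter `p ∈ [0, 1]`.  `changes n ω` is the
minimal number of colour changes of a path from the origin to the distance `n`, that is the number
of nested alternating (open / dual-open) layers around the origin inside the box of radius `n`: the
interfaces between these layers are the nested exploration loops around the origin.
`total ω` is the supremum over `n`, `corr p = |p - 1/2| ^ (-4/3)` (the correlation length, up to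
constants) and `scale p n` is the smaller one of `n` and `corr p` (it is `n` at `p = 1/2`).
Definitions used (in `Pool.Agent.H974R2.Model`, `Pool.Agent.H863R2.NL.Defs`,
`Pool.Agent.W819.EN.Defs` of the library): `sqLattice`, `bondLaw`, `openGraph`, `Pt`, `Corner`,
`Free`, `Change`, `ReachIn`, `norm2`, `changes`, `psi`, `Psi`, `Lam`, `Rate`.
-/

set_option autoImplicit false

namespace Pool.Agent.Results.MP_fe58d8_pr.OffCriticalNesting

open H974 MeasureTheory Filter
open Pool.Agent.H863R2.NL (changes psi)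
open Pool.Agent.W819.EN (Rate Psi nuc)
open Pool.Agent.H953.Nst (xi mn Gq_full E1_full EE EE_pow EE_id int_ch prob_ch ae_bdd mean_total
  EE_bdd total_bd prob_total abs_total few_s few_up few_lo conc xi_ge)

/-- the correlation length (up to constants) -/
noncomputable def corr (p : ℝ) : ℝ := |p - 1/2| ^ (-(4/3) : ℝ)

/-- the smaller one of `n` and the correlation length -/
noncomputable def scale (p : ℝ) (n : ℕ) : ℝ := if p = 1/2 then n else min n (corr p)

/-- the total number of layers around the origin -/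
noncomputable def total (ω : sqLattice.edgeSet → Bool) : ℕ := ⨆ n, changes n ω

/-- **Off-critical nesting exponents of bond percolation on `ℤ²`.**  All the constants are uniform
in the parameter `p ∈ [0, 1]` and in the radius `n ≥ 1`.

(1) For every `0 < t ≤ 1` the generating function `E_p t ^ (changes n)` is of the order
`scale p n ^ ψ(t)` with `ψ(t) = 3/(4 π²) (π²/9 - arccos² (t/2))`, and for `p ≠ 1/2` the total
number of layers satisfies `E_p t ^ total ≍ |p - 1/2| ^ (-(4/3) ψ(t))`: a continuum of off-critical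
exponents; their value at `t = 0` is the exponent `5/36` of the percolation probability.

(2) The mean of `changes n` is `1/(2 √3 π) log (scale p n) + O(1)`, the mean of the total number of
layers is `2/(3 √3 π) log (1 / |p - 1/2|) + O(1)`.

(3) For `p ≠ 1/2` the number of layers is almost surely bounded, and `total` is integrable.

(4) Few layers: for `0 < ν < 1/(2 √3 π)` and `ε > 0`, the probability of at most
`ν log (scale p n)` layers is between `scale p n ^ (-Rate ν ∓ ε)` as soon as `scale p n ≥ S0`; the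
same for the total number of layers, with `corr p` in the place of `scale p n`.

(5) Law of large numbers in mean: `E_p |changes n - 1/(2 √3 π) log (scale p n)|` is at most
`ε log (scale p n) + C(ε)`, for every `ε > 0`; the same for the total number of layers. -/
theorem result :
    (∀ t : ℝ, 0 < t → t ≤ 1 → ∃ c C : ℝ, 0 < c ∧ 0 < C ∧
      (∀ (p : unitInterval) (n : ℕ), 1 ≤ n →
        c * scale p n ^ psi t ≤ ∫ ω, t ^ changes n ω ∂(bondLaw p) ∧
        ∫ ω, t ^ changes n ω ∂(bondLaw p) ≤ C * scale p n ^ psi t) ∧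
      ∀ p : unitInterval, (p:ℝ) ≠ 1/2 →
        c * |(p:ℝ) - 1/2| ^ (-(4/3) * psi t) ≤ ∫ ω, t ^ total ω ∂(bondLaw p) ∧
        ∫ ω, t ^ total ω ∂(bondLaw p) ≤ C * |(p:ℝ) - 1/2| ^ (-(4/3) * psi t)) ∧
    (∃ C : ℝ,
      (∀ (p : unitInterval) (n : ℕ), 1 ≤ n →
        |∫ ω, (changes n ω : ℝ) ∂(bondLaw p) -
          1 / (2 * Real.sqrt 3 * Real.pi) * Real.log (scale p n)| ≤ C) ∧
      ∀ p : unitInterval, (p:ℝ) ≠ 1/2 →
        |∫ ω, (total ω : ℝ) ∂(bondLaw p) -
          2 / (3 * Real.sqrt 3 * Real.pi) * Real.log (1 / |(p:ℝ) - 1/2|)| ≤ C) ∧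
    (∀ p : unitInterval, (p:ℝ) ≠ 1/2 →
      (∀ᵐ ω ∂(bondLaw p), BddAbove (Set.range fun n => changes n ω)) ∧
      Integrable (fun ω => (total ω : ℝ)) (bondLaw p)) ∧
    (∀ ν : ℝ, 0 < ν → ν < 1 / (2 * Real.sqrt 3 * Real.pi) → ∀ ε : ℝ, 0 < ε → ∃ S0 : ℝ, 1 < S0 ∧
      (∀ (p : unitInterval) (n : ℕ), 1 ≤ n → S0 ≤ scale p n →
        scale p n ^ (-(Rate ν) - ε) ≤
          (bondLaw p).real {ω | (changes n ω : ℝ) ≤ ν * Real.log (scale p n)} ∧
        (bondLaw p).real {ω | (changes n ω : ℝ) ≤ ν * Real.log (scale p n)} ≤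
          scale p n ^ (-(Rate ν) + ε)) ∧
      ∀ p : unitInterval, (p:ℝ) ≠ 1/2 → S0 ≤ corr p →
        corr p ^ (-(Rate ν) - ε) ≤
          (bondLaw p).real {ω | (total ω : ℝ) ≤ ν * Real.log (corr p)} ∧
        (bondLaw p).real {ω | (total ω : ℝ) ≤ ν * Real.log (corr p)} ≤
          corr p ^ (-(Rate ν) + ε)) ∧
    ∀ ε : ℝ, 0 < ε → ∃ C : ℝ, 0 < C ∧
      (∀ (p : unitInterval) (n : ℕ), 1 ≤ n →
        ∫ ω, |(changes n ω : ℝ) - 1 / (2 * Real.sqrt 3 * Real.pi) * Real.log (scale p n)|
          ∂(bondLaw p) ≤ ε * Real.log (scale p n) + C) ∧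
      ∀ p : unitInterval, (p:ℝ) ≠ 1/2 →
        ∫ ω, |(total ω : ℝ) - 1 / (2 * Real.sqrt 3 * Real.pi) * Real.log (corr p)|
          ∂(bondLaw p) ≤ ε * Real.log (corr p) + C := by
  have hsc : ∀ (p : ℝ) (n : ℕ), scale p n = mn p n := fun _ _ => rfl
  have hco : ∀ p : ℝ, corr p = xi p := fun _ => rfl
  have hto : total = Pool.Agent.H953.Nst.total := rfl
  have hnu : 1 / (2 * Real.sqrt 3 * Real.pi) = nuc := rfl
  have hx : ∀ (p x : ℝ), |p - 1/2| ^ (-(4/3) * x) = xi p ^ x := by
    intro p x
    unfold xi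
    rw [← Real.rpow_mul (abs_nonneg _)]
  have hlx : ∀ p : ℝ, p ≠ 1/2 → 2 / (3 * Real.sqrt 3 * Real.pi) * Real.log (1 / |p - 1/2|) =
      nuc * Real.log (xi p) := by
    intro p hp
    have h : 0 < |p - 1/2| := abs_pos.2 (sub_ne_zero.2 hp)
    unfold xi
    rw [Real.log_rpow h, one_div, Real.log_inv, ← hnu]
    have h3 : Real.sqrt 3 ≠ 0 := by positivity
    have hpi := Real.pi_ne_zero
    field_simp
    ring
  rw [hto]
  simp only [hsc, hco]
  refine ⟨?_, ?_, ?_, ?_, ?_⟩
  · intro t t0 t1
    obtain ⟨c, C, hc, hC, h⟩ := Gq_full t0 t1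
    rw [Pool.Agent.W819.EN.OneP.Psi_le_one t1] at h
    refine ⟨c, C, hc, hC, ?_, ?_⟩
    · intro p n hn
      rw [int_ch p n (fun k => t ^ k), EE_pow]
      exact h p p.2.1 p.2.2 n hn
    · intro p hp
      rw [hx]
      apply total_bd hp (g := fun k => t ^ k) (B := 1)
      · intro k
        rw [abs_of_nonneg (by positivity)]
        exact pow_le_one₀ t0.le t1
      · intro n hn hm
        have := h p p.2.1 p.2.2 n hn
        rw [hm] at this
        exact this
  · obtain ⟨C, hC, h⟩ := E1_full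
    refine ⟨C, ?_, ?_⟩
    · intro p n hn
      rw [int_ch p n (fun k => (k:ℝ)), EE_id, hnu]
      exact h p p.2.1 p.2.2 n hn
    · intro p hp
      rw [hlx p hp]
      obtain ⟨B, hB⟩ := EE_bdd p hp
      have hl := (mean_total hB).2
      have h1 := (hl.sub_const (nuc * Real.log (xi p))).abs
      apply le_of_tendsto h1
      filter_upwards [Pool.Agent.H953.Nst.ev_mn hp] with n hn
      have := h p p.2.1 p.2.2 n hn.2
      rw [hn.1] at this
      exact this
  · intro p hp
    obtain ⟨C, hC⟩ := EE_bdd p hp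
    exact ⟨ae_bdd hC, (mean_total hC).1⟩
  · intro ν h0 h1 ε hε
    obtain ⟨s, hs0, hs, hR, -⟩ := few_s h0 h1
    obtain ⟨S1, hS1, hu⟩ := few_up hs0.le hε
    obtain ⟨S2, hS2, hl⟩ := few_lo hs0 hε
    rw [← hR] at hu hl
    rw [hs] at hu hl
    refine ⟨max S1 S2, lt_max_of_lt_left hS1, ?_, ?_⟩
    · intro p n hn hS
      rw [prob_ch p n (fun k => (k:ℝ) ≤ ν * Real.log (mn p n))]
      exact ⟨hl p p.2.1 p.2.2 n hn ((le_max_right _ _).trans hS),
        hu p p.2.1 p.2.2 n hn ((le_max_left _ _).trans hS)⟩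
    · intro p hp hS
      rw [← prob_total]
      apply total_bd hp (g := fun k => ind ((k:ℝ) ≤ ν * Real.log (xi p))) (B := 1)
      · intro k
        rw [abs_of_nonneg (ind_nonneg _)]
        exact ind_le_one _
      · intro n hn hm
        have a1 := hl p p.2.1 p.2.2 n hn (by rw [hm]; exact (le_max_right _ _).trans hS)
        have a2 := hu p p.2.1 p.2.2 n hn (by rw [hm]; exact (le_max_left _ _).trans hS)
        rw [hm] at a1 a2
        exact ⟨a1, a2⟩
  · intro ε hε
    obtain ⟨C, hC, h⟩ := conc hε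
    refine ⟨C, hC, ?_, ?_⟩
    · intro p n hn
      rw [hnu, int_ch p n (fun k => |(k:ℝ) - nuc * Real.log (mn p n)|)]
      exact h p p.2.1 p.2.2 n hn
    · intro p hp
      rw [hnu]
      apply abs_total hp
      intro n hn hm
      have := h p p.2.1 p.2.2 n hn
      rw [hm] at this
      exact this

end Pool.Agent.Results.MP_fe58d8_pr.OffCriticalNesting
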