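import Pool.Agent.H966.N3.Fin

/-!
Critical bond percolation on `ℤ²` (`p = 1/2`): the sharp rate of convergence in Cardy's formula for
the exploration path and for all the conformal rectangles of a forked channel.

The exploration path in the plane cut along a half-infinite rectangle (slit) of width `γ`, started at
the left corner of the slit, leaves the strip `-α < X < γ + β` at the left line `X = -α`, at the right
bank of the slit or at the right line `X = γ + β`, with probabilities which tend to the values of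
SLE(6), given by Cardy's formula and the conformal images `x < x'` of the two corners of the slit
(`MP_fe58d8_pr.ExplorationExitLaw`). Here we determine the error of the three probabilities, and of
Cardy's formula for the five pairs of boundary arcs (left wall, left bank, right bank, right wall of
the fork) and of two joint crossing probabilities. All the errors are exactly of order `δ^(2/3)` in
the mesh `δ`, with explicit constants, and all of them have the same origin: up to `o(δ^(2/3))` they
are what Cardy's formula gives if each corner is displaced along the bottom of the slit (ledge),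
towards the other corner, by `lam = 2 / (3 π) (Γ(1/3) / Γ(2/3))^(3/2) ≈ 0.59` lattice units. So the
second order of the exit law and of all the crossing probabilities is conformally covariant, with one
lattice dependent constant, which is a property of the corner and not of the event.

Coordinates: the vertex `(u,v)` of `ℤ²` at mesh `δ` sits at `X + iY`, `X = δ (u - v)`,
`Y = δ (u + v)` (rotation by 45 degrees). The column of a point is `u - v`, its height `u + v`. A
lattice unit is the distance `δ` of two neighbouring columns.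
-/

namespace Pool.Agent.Results.MP_fe58d8_pr.SharpExitLaw

open MeasureTheory Filter Topology Set

/-- edges of `ℤ²`: `(u,v,false)` joins `(u,v)` and `(u+1,v)`; `(u,v,true)` joins `(u,v)` and
`(u,v+1)`. -/
abbrev Edge := ℤ × ℤ × Bool

/-- configurations (`true` = open) -/
abbrev Conf := Edge → Bool

/-- `x` and `y` are the two ends of an open edge -/
def OpenAdj (ω : Conf) (x y : ℤ × ℤ) : Prop :=
  (y = (x.1 + 1, x.2) ∧ ω (x.1, x.2, false) = true) ∨
  (x = (y.1 + 1, y.2) ∧ ω (y.1, y.2, false) = true) ∨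
  (y = (x.1, x.2 + 1) ∧ ω (x.1, x.2, true) = true) ∨
  (x = (y.1, y.2 + 1) ∧ ω (y.1, y.2, true) = true)

/-- bond percolation at `p = 1/2`: independent fair coins on the edges -/
noncomputable def perc : Measure Conf :=
  Measure.infinitePi (fun _ : Edge => (PMF.uniformOfFintype Bool).toMeasure)

/-! ## The exploration path -/

/-- A state `(x, d)` of the exploration path: the path passes next to the vertex `x`, which is on
its right, and looks at the edge which leaves `x` in the direction `d`. -/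
abbrev State := (ℤ × ℤ) × Fin 4

/-- the four directions, counterclockwise: `0` = right, `1` = up, `2` = left, `3` = down -/
def vec (d : Fin 4) : ℤ × ℤ :=
  match d with
  | 0 => (1, 0)
  | 1 => (0, 1)
  | 2 => (-1, 0)
  | 3 => (0, -1)

/-- the slit: columns `[0,m]`, heights `≥ 0` -/
def InSlit (m : ℕ) (x : ℤ × ℤ) : Prop := 0 ≤ x.1 - x.2 ∧ x.1 - x.2 ≤ m ∧ 0 ≤ x.1 + x.2

/-- the left bank of the slit: the vertices `(k,k)`, `k ≥ 0` (column `0`, height `≥ 0`) -/
def LeftBank (x : ℤ × ℤ) : Prop := x.1 = x.2 ∧ 0 ≤ x.1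

/-- the right bank of the slit: column `m`, height `≥ 0` -/
def RightBank (m : ℕ) (x : ℤ × ℤ) : Prop := x.1 - x.2 = m ∧ 0 ≤ x.1 + x.2

/-- the edge `{x,y}` is open and is not an edge of the slit -/
def SAdj (m : ℕ) (ω : Conf) (x y : ℤ × ℤ) : Prop := OpenAdj ω x y ∧ ¬ (InSlit m x ∧ InSlit m y)

open Classical in
/-- One step of the exploration path in the configuration `ω`: if the edge it looks at is open and
not in the slit, the path goes along this edge and turns counterclockwise (`d + 1`); otherwise it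
turns clockwise around the vertex (`d + 3 = d - 1`). The left bank is open: at a vertex of the left
bank, when the path looks at the slit (`d = 0`), it goes on to the next vertex `x + (1,1)` of the left
bank. -/
noncomputable def step (m : ℕ) (ω : Conf) (s : State) : State :=
  if LeftBank s.1 ∧ s.2 = 0 then (s.1 + (1, 1), 2)
  else if SAdj m ω s.1 (s.1 + vec s.2) then (s.1 + vec s.2, s.2 + 1)
  else (s.1, s.2 + 3)

/-- the exploration path: it starts at the left corner of the slit, at the lowest vertex `(0,0)` of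
the left bank, looking down -/
noncomputable def path (m : ℕ) (ω : Conf) (n : ℕ) : State := (step m ω)^[n] ((0, 0), 3)

/-- the column of the dual vertex (centre of a face) on the left of the path, which is
`x + (1/2,1/2)`, `x + (-1/2,1/2)`, `x + (-1/2,-1/2)`, `x + (1/2,-1/2)` for `d = 0, 1, 2, 3` -/
def leftCol (s : State) : ℤ :=
  match s.2 with
  | 0 => s.1.1 - s.1.2
  | 1 => s.1.1 - s.1.2 - 1
  | 2 => s.1.1 - s.1.2
  | 3 => s.1.1 - s.1.2 + 1

/-- the column of the vertex on the right of the path -/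
def rightCol (s : State) : ℤ := s.1.1 - s.1.2

/-- the left side of the path reaches the column `-a` before its right side reaches the right bank or
the column `m + b` -/
def ExitLeft (a m b : ℕ) : Set Conf :=
  {ω | ∃ n, leftCol (path m ω n) ≤ -(a : ℤ) ∧
    ∀ j ≤ n, ¬ RightBank m (path m ω j).1 ∧ rightCol (path m ω j) < (m : ℤ) + b}

/-- the right side of the path reaches the right bank before the column `m + b`, and before the left
side reaches the column `-a` -/
def ExitBank (a m b : ℕ) : Set Conf :=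
  {ω | ∃ n, RightBank m (path m ω n).1 ∧
    ∀ j ≤ n, -(a : ℤ) < leftCol (path m ω j) ∧ rightCol (path m ω j) < (m : ℤ) + b}

/-- the right side of the path reaches the column `m + b` before the right bank, and before the left
side reaches the column `-a` -/
def ExitRight (a m b : ℕ) : Set Conf :=
  {ω | ∃ n, (m : ℤ) + b ≤ rightCol (path m ω n) ∧
    ∀ j ≤ n, -(a : ℤ) < leftCol (path m ω j) ∧ ¬ RightBank m (path m ω j).1}

/-! ## The forked channel -/

/-- The column of the vertex `(u,v)` is `u - v`, its height is `u + v`. Open edges of the forked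
channel: both ends have their column in `[-a, m+b]`; the edges with both ends at height `≥ 0` and
both ends in the columns `[0, m]` (the slit) are removed. -/
def FAdj (a m b : ℕ) (ω : Conf) (x y : ℤ × ℤ) : Prop :=
  OpenAdj ω x y ∧ -(a:ℤ) ≤ x.1 - x.2 ∧ x.1 - x.2 ≤ ((m+b : ℕ) : ℤ) ∧
    -(a:ℤ) ≤ y.1 - y.2 ∧ y.1 - y.2 ≤ ((m+b : ℕ) : ℤ) ∧
    ¬ (0 ≤ x.1 + x.2 ∧ 0 ≤ y.1 + y.2 ∧ 0 ≤ x.1 - x.2 ∧ x.1 - x.2 ≤ m ∧
      0 ≤ y.1 - y.2 ∧ y.1 - y.2 ≤ m)

/-- the vertices of the column `c` (the left wall for `c = -a`, the right wall for `c = m + b`) -/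
def Wall (c : ℤ) : Set (ℤ × ℤ) := {x | x.1 - x.2 = c}

/-- the vertices of the column `c` of height `≥ 0` (the left bank of the slit for `c = 0`, the right
bank for `c = m`) -/
def Bank (c : ℤ) : Set (ℤ × ℤ) := {x | x.1 - x.2 = c ∧ 0 ≤ x.1 + x.2}

/-- there is an open path of the forked channel from a vertex of `A` to a vertex of `B` -/
def Joined (a m b : ℕ) (A B : Set (ℤ × ℤ)) : Set Conf :=
  {ω | ∃ x ∈ A, ∃ y ∈ B, Relation.ReflTransGen (FAdj a m b ω) x y}

/-! ## Cardy's function, the conformal map -/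

/-- Cardy's function: the normalised primitive of `(t(1-t))^(-2/3)` -/
noncomputable def cardy (x : ℝ) : ℝ :=
  (∫ t in (0:ℝ)..x, (t*(1-t))^(-(2:ℝ)/3)) / ∫ t in (0:ℝ)..1, (t*(1-t))^(-(2:ℝ)/3)

/-- the strip `-α < X < γ + β` without the slit `{0 ≤ X ≤ γ, Y ≥ 0}` -/
def Dom (α γ β : ℝ) : Set ℂ := {w | -α < w.re ∧ w.re < γ + β ∧ (0 ≤ w.re → w.re ≤ γ → w.im < 0)}

/-- `f` is an orientation reversing conformal map of the upper half-plane onto the strip
without the slit,
with the boundary correspondence: left wall, inner wall of the left arm, left corner of the slit,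
ledge (bottom of the slit), right corner of the slit, inner wall of the right arm, right wall =
`(-∞,0)`, `(0,x)`, `x`, `(x,x')`, `x'`, `(x',1)`, `(1,∞)` (`0`, `1` and `∞` correspond to the ends
of the left arm, of the right arm and of the lower strip). -/
structure Uniformizes (α γ β x x' : ℝ) (f : ℂ → ℂ) : Prop where
  /-- the complex conjugate of `f` is holomorphic in the upper half-plane -/
  holo : DifferentiableOn ℂ (fun z => (starRingEnd ℂ) (f z)) {z | 0 < z.im}
  /-- `f` is a bijection of the upper half-plane onto the strip without the slit -/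
  bij : BijOn f {z | 0 < z.im} (Dom α γ β)
  /-- `f` is continuous up to the boundary (without `0` and `1`) -/
  cont : ContinuousOn f {z : ℂ | 0 ≤ z.im ∧ z ≠ 0 ∧ z ≠ 1}
  /-- `(-∞,0)` is mapped to the left wall -/
  leftWall : BijOn (fun t : ℝ => f t) (Iio 0) {w | w.re = -α}
  /-- `(0,x)` is mapped to the inner wall of the left arm -/
  innerWall : BijOn (fun t : ℝ => f t) (Ioo 0 x) {w | w.re = 0 ∧ 0 < w.im}
  /-- `x` is mapped to the left corner -/
  corner : f (x : ℂ) = 0
  /-- `(x,x')` is mapped to the ledge -/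
  ledge : BijOn (fun t : ℝ => f t) (Ioo x x') {w | w.im = 0 ∧ 0 < w.re ∧ w.re < γ}
  /-- `x'` is mapped to the right corner -/
  corner' : f (x' : ℂ) = (γ : ℂ)
  /-- `(x',1)` is mapped to the inner wall of the right arm -/
  innerWall' : BijOn (fun t : ℝ => f t) (Ioo x' 1) {w | w.re = γ ∧ 0 < w.im}
  /-- `(1,∞)` is mapped to the right wall -/
  rightWall : BijOn (fun t : ℝ => f t) (Ioi 1) {w | w.re = γ + β}

/-! ## The values, the corrections -/

/-- left bank - right bank (and the right bank for the path) -/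
noncomputable def pBanks (u v : ℝ) : ℝ := cardy (u * (1 - v) / (v * (1 - u)))

/-- left bank - right wall -/
noncomputable def pOut (u _v : ℝ) : ℝ := cardy u

/-- left wall - right bank -/
noncomputable def pIn (_u v : ℝ) : ℝ := cardy (1 - v)

/-- left wall and left bank - right bank -/
noncomputable def pLeft (u v : ℝ) : ℝ := cardy ((1 - v) / (1 - u))

/-- left bank - right bank and right wall -/
noncomputable def pRight (u v : ℝ) : ℝ := cardy (u / v)

noncomputable def qBanks (x x' : ℝ) : ℝ :=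
  ((x * (1 - x))^((1:ℝ)/3) + (x' * (1 - x'))^((1:ℝ)/3)) / (x' - x)

noncomputable def qWall (x x' : ℝ) : ℝ := (x' - x)^(-(1:ℝ)/3)

noncomputable def qLeft (x x' : ℝ) : ℝ :=
  ((1 - x)^((1:ℝ)/3) * x'^((2:ℝ)/3) + (1 - x')^((1:ℝ)/3) * x^((2:ℝ)/3)) / (x' - x)

noncomputable def qRight (x x' : ℝ) : ℝ :=
  ((1 - x)^((2:ℝ)/3) * x'^((1:ℝ)/3) + (1 - x')^((2:ℝ)/3) * x^((1:ℝ)/3)) / (x' - x)

/-- The displacement of the corners of the slit along its bottom, in lattice units (about 0.59). -/
noncomputable def lam : ℝ := 2 / (3 * Real.pi) * (Real.Gamma (1/3) / Real.Gamma (2/3))^((3:ℝ)/2)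

/-- The sharp form of the limit theorem `P n → p (x, x')` (`p` = formula for the probability in terms of
the conformal images of the corners, `S = α + γ + β` = width of the strip, `γ` = width of the slit,
`g` = inverse of the conformal map on the ledge). -/
structure Sharp (γ S x x' : ℝ) (g : ℝ → ℝ) (δ P : ℕ → ℝ) (p : ℝ → ℝ → ℝ) (q : ℝ) : Prop where
  /-- the order of the error is `δ^(2/3)`, the constant is `S^(-2/3) / Γ(1/3) * q` -/
  rate : Tendsto (fun n => (P n - p x x') / (δ n)^((2:ℝ)/3)) atTop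
    (𝓝 (S^(-(2:ℝ)/3) / Real.Gamma (1/3) * q))
  /-- up to `o(δ^(2/3))`, `P n` is the value of the formula `p` for the displaced corners: the points of
  the ledge at the distance `lam` lattice units from the left and the right corner -/
  disp : Tendsto (fun n => (P n - p (g (lam * δ n)) (g (γ - lam * δ n))) / (δ n)^((2:ℝ)/3)) atTop
    (𝓝 0)

variable {γ S x x' : ℝ} {g : ℝ → ℝ} {δ P P' : ℕ → ℝ} {p p' : ℝ → ℝ → ℝ} {q q' : ℝ}

theorem Sharp.add (h : Sharp γ S x x' g δ P p q) (h' : Sharp γ S x x' g δ P' p' q') :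
    Sharp γ S x x' g δ (fun n => P n + P' n) (fun u v => p u v + p' u v) (q + q') := by
  constructor
  · have h1 := h.rate.add h'.rate
    rw [← mul_add] at h1
    refine h1.congr fun n => ?_
    rw [← add_div]
    congr 1
    ring
  · have h1 := h.disp.add h'.disp
    rw [add_zero] at h1
    refine h1.congr fun n => ?_
    rw [← add_div]
    congr 1
    ring

theorem Sharp.sub (h : Sharp γ S x x' g δ P p q) (h' : Sharp γ S x x' g δ P' p' q') :
    Sharp γ S x x' g δ (fun n => P n - P' n) (fun u v => p u v - p' u v) (q - q') := by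
  constructor
  · have h1 := h.rate.sub h'.rate
    rw [← mul_sub] at h1
    refine h1.congr fun n => ?_
    rw [← sub_div]
    congr 1
    ring
  · have h1 := h.disp.sub h'.disp
    rw [sub_zero] at h1
    refine h1.congr fun n => ?_
    rw [← sub_div]
    congr 1
    ring

theorem Sharp.one_sub (h : Sharp γ S x x' g δ P p q) :
    Sharp γ S x x' g δ (fun n => 1 - P n) (fun u v => 1 - p u v) (-q) := by
  constructor
  · have h1 := h.rate.neg
    rw [← mul_neg] at h1
    refine h1.congr fun n => ?_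
    rw [← neg_div]
    congr 1
    ring
  · have h1 := h.disp.neg
    rw [neg_zero] at h1
    refine h1.congr fun n => ?_
    rw [← neg_div]
    congr 1
    ring

theorem Sharp.congr (h : Sharp γ S x x' g δ P p q) (he : ∀ᶠ n in atTop, P n = P' n) :
    Sharp γ S x x' g δ P' p q := by
  constructor
  · refine h.rate.congr' ?_
    filter_upwards [he] with n hn
    rw [hn]
  · refine h.disp.congr' ?_
    filter_upwards [he] with n hn
    rw [hn]

/-- from the rate and the expansion of the formula at the displaced corners -/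
theorem Sharp.of {c : ℝ} (hc : c = S^(-(2:ℝ)/3) / Real.Gamma (1/3) * q)
    (h1 : Tendsto (fun n => (P n - p x x') / (δ n)^((2:ℝ)/3)) atTop (𝓝 c))
    (h2 : Tendsto (fun n => (p (g (lam * δ n)) (g (γ - lam * δ n)) - p x x') / (δ n)^((2:ℝ)/3)) atTop
      (𝓝 c)) : Sharp γ S x x' g δ P p q := by
  constructor
  · rw [← hc]
    exact h1
  · have h3 := h1.sub h2
    rw [sub_self] at h3
    refine h3.congr fun n => ?_
    rw [← sub_div]
    congr 1
    ring

/-- The sharp exit law. Let `α, γ, β > 0`, `0 < x < x' < 1` with `x x' = (α/(α+γ+β))²`,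
`(1-x)(1-x') = (β/(α+γ+β))²` the images of the corners of the slit under the conformal map `f⁻¹` of the
forked channel onto the half-plane, `Λ, Λ' > 0` the coefficients of `f` at the corners and `g` the
inverse of `f` on the ledge. Let the lattice widths `a`, `m` (even), `b` be within `O(1)` of `α/δ`,
`γ/δ`, `β/δ`. Then, as `δ → 0`:
(0) the displaced corners are, in the half-plane, `x + (lam δ/Λ)^(2/3)` and `x' - (lam δ/Λ')^(2/3)` up
to `o(δ^(2/3))`;
(1) the probabilities of the three exits of the exploration path are, up to `o(δ^(2/3))`, the values of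
the limit formulas at the displaced corners; the coefficients of `δ^(2/3)` are explicit;
(2) the same for the five crossing probabilities between the left wall, the left bank, the right bank
and the right wall of the forked channel;
(3) the same for the probabilities that the right bank is joined to the left wall and to the left bank,
and that the left bank is joined to the right bank and to the right wall. -/
theorem result (α γ β : ℝ) (hα : 0 < α) (hγ : 0 < γ) (hβ : 0 < β) :
    ∃ x x' : ℝ, 0 < x ∧ x < x' ∧ x' < 1 ∧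
      x * x' = (α / (α + γ + β))^2 ∧ (1 - x) * (1 - x') = (β / (α + γ + β))^2 ∧
      ∃ (f : ℂ → ℂ) (Λ Λ' : ℝ) (g : ℝ → ℝ), Uniformizes α γ β x x' f ∧ 0 < Λ ∧ 0 < Λ' ∧
      Tendsto (fun t : ℝ => (f t).re / (t - x)^((3:ℝ)/2)) (𝓝[>] x) (𝓝 Λ) ∧
      Tendsto (fun t : ℝ => (γ - (f t).re) / (x' - t)^((3:ℝ)/2)) (𝓝[<] x') (𝓝 Λ') ∧
      (∀ s ∈ Ioo 0 γ, g s ∈ Ioo x x' ∧ f (g s) = (s : ℂ)) ∧
      ∀ (K : ℝ) (δ : ℕ → ℝ) (a m b : ℕ → ℕ), (∀ n, 0 < δ n) → Tendsto δ atTop (𝓝 0) →
        (∀ n, Even (m n)) → (∀ n, |δ n * a n - α| ≤ K * δ n) →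
        (∀ n, |δ n * m n - γ| ≤ K * δ n) → (∀ n, |δ n * b n - β| ≤ K * δ n) →
        -- (0)
        Tendsto (fun n => (g (lam * δ n) - x) / (δ n)^((2:ℝ)/3)) atTop (𝓝 ((lam / Λ)^((2:ℝ)/3))) ∧
        Tendsto (fun n => (x' - g (γ - lam * δ n)) / (δ n)^((2:ℝ)/3)) atTop
          (𝓝 ((lam / Λ')^((2:ℝ)/3))) ∧
        -- (1)
        Sharp γ (α + γ + β) x x' g δ (fun n => perc.real (ExitLeft (a n) (m n) (b n)))
          (fun u v => 1 - pRight u v) (-qRight x x') ∧
        Sharp γ (α + γ + β) x x' g δ (fun n => perc.real (ExitBank (a n) (m n) (b n)))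
          pBanks (qBanks x x') ∧
        Sharp γ (α + γ + β) x x' g δ (fun n => perc.real (ExitRight (a n) (m n) (b n)))
          (fun u v => pRight u v - pBanks u v) (qRight x x' - qBanks x x') ∧
        -- (2)
        Sharp γ (α + γ + β) x x' g δ
          (fun n => perc.real (Joined (a n) (m n) (b n) (Bank 0) (Bank (m n))))
          pBanks (qBanks x x') ∧
        Sharp γ (α + γ + β) x x' g δ
          (fun n => perc.real (Joined (a n) (m n) (b n) (Bank 0) (Wall (m n + b n))))
          pOut (qWall x x') ∧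
        Sharp γ (α + γ + β) x x' g δ
          (fun n => perc.real (Joined (a n) (m n) (b n) (Wall (-(a n))) (Bank (m n))))
          pIn (qWall x x') ∧
        Sharp γ (α + γ + β) x x' g δ
          (fun n => perc.real (Joined (a n) (m n) (b n) (Wall (-(a n)) ∪ Bank 0) (Bank (m n))))
          pLeft (qLeft x x') ∧
        Sharp γ (α + γ + β) x x' g δ
          (fun n => perc.real (Joined (a n) (m n) (b n) (Bank 0) (Bank (m n) ∪ Wall (m n + b n))))
          pRight (qRight x x') ∧
        -- (3)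
        Sharp γ (α + γ + β) x x' g δ
          (fun n => perc.real (Joined (a n) (m n) (b n) (Wall (-(a n))) (Bank (m n)) ∩
            Joined (a n) (m n) (b n) (Bank 0) (Bank (m n))))
          (fun u v => pIn u v + pBanks u v - pLeft u v)
          (qWall x x' + qBanks x x' - qLeft x x') ∧
        Sharp γ (α + γ + β) x x' g δ
          (fun n => perc.real (Joined (a n) (m n) (b n) (Bank 0) (Wall (m n + b n)) ∩
            Joined (a n) (m n) (b n) (Bank 0) (Bank (m n))))
          (fun u v => pOut u v + pBanks u v - pRight u v)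
          (qWall x x' + qBanks x x' - qRight x x') := by
  have hN : 0 < α + γ + β := by positivity
  have H := Pool.Agent.NH38.Fork.UGC.hp_of hα hγ hβ
  set A : ℝ := (α / (α + γ + β))^2 with hA
  set B : ℝ := (β / (α + γ + β))^2 with hB
  have hr : 0 < α / (α + γ + β) := by positivity
  have hs : 0 < β / (α + γ + β) := by positivity
  have hrs : α / (α + γ + β) + β / (α + γ + β) < 1 := by
    rw [← add_div, div_lt_one hN]; linarith
  obtain ⟨hx1, hlt, hx2', hprod, hprod'⟩ := Pool.Agent.NH38.Fork.UGC.roots hr hs hrs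
  set x := Pool.Agent.NH38.Fork.x1 A B with hx
  set x' := Pool.Agent.NH38.Fork.x2 A B with hx'
  have hf := Pool.Agent.NH38.Fork.UGL.unif H
  have hL := Pool.Agent.NH38.Fork.UGL.corner_lim H
  have hR := Pool.Agent.H966.N1.corner_lim' H
  have hmono := Pool.Agent.NH38.Fork.UGC.mono_ledge H
  have h1x : 0 < 1 - x := by linarith
  have h1x' : 0 < 1 - x' := by linarith
  have hx0' : 0 < x' := by linarith
  have hd : 0 < x' - x := by linarith
  have hsd : 0 < √(x' - x) := Real.sqrt_pos.2 hd
  have hpi := Real.pi_pos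
  set F : ℂ → ℂ := fun z => (starRingEnd ℂ) (Pool.Agent.NH38.Fork.UGC.gg α γ β x x' z) with hF
  have hgre : ∀ t : ℝ, (F t).re = (Pool.Agent.NH38.Fork.UGC.gg α γ β x x' (t : ℂ)).re := fun t => by
    rw [hF]; exact Complex.conj_re _
  have hm1 : StrictMonoOn (fun t : ℝ => (F t).re) (Icc x x') := by
    intro s hs t ht hst
    simp only [hgre]
    exact hmono hs ht hst
  have hL' : Tendsto (fun t : ℝ => (F t).re / (t - x)^((3:ℝ)/2)) (𝓝[>] x)
      (𝓝 (2 * (α+γ+β) / (3 * Real.pi) * √(x' - x) / (x * (1 - x)))) :=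
    hL.congr fun t => by rw [hgre]
  have hR' : Tendsto (fun t : ℝ => (γ - (F t).re) / (x' - t)^((3:ℝ)/2)) (𝓝[<] x')
      (𝓝 (2 * (α+γ+β) / (3 * Real.pi) * √(x' - x) / (x' * (1 - x')))) :=
    hR.congr fun t => by rw [hgre]
  have hex : ∀ s : ℝ, ∃ t : ℝ, t ∈ Ioo x x' ∧ (s ∈ Ioo 0 γ → F t = (s:ℂ)) := by
    intro s
    by_cases hs : s ∈ Ioo 0 γ
    · obtain ⟨t, ht, ht2⟩ := hf.ledge.surjOn (show ((s:ℂ)) ∈ _ from
        ⟨Complex.ofReal_im s, by rw [Complex.ofReal_re]; exact hs.1,
          by rw [Complex.ofReal_re]; exact hs.2⟩)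
      exact ⟨t, ht, fun _ => ht2⟩
    · exact ⟨(x+x')/2, ⟨by linarith, by linarith⟩, fun h => absurd h hs⟩
  choose g hg1 hg2 using hex
  refine ⟨x, x', hx1, hlt, hx2', hprod, hprod', F,
    2 * (α+γ+β) / (3 * Real.pi) * √(x' - x) / (x * (1 - x)),
    2 * (α+γ+β) / (3 * Real.pi) * √(x' - x) / (x' * (1 - x')), g,
    ⟨hf.holo, hf.bij, hf.cont, hf.leftWall, hf.innerWall, hf.corner, hf.ledge,
      hf.corner', hf.innerWall', hf.rightWall⟩, by positivity, by positivity, hL', hR',
    fun s hs => ⟨hg1 s, hg2 s hs⟩, ?_⟩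
  intro K δ a m b hδ hδ0 hme ha hm hb
  have W : Pool.Agent.H966.N3.Wd α γ β K δ a m b := ⟨hα, hγ, hβ, hδ, hδ0, hme, ha, hm, hb⟩
  have hδp : ∀ n, 0 < (δ n)^((2:ℝ)/3) := fun n => Real.rpow_pos_of_pos (hδ n) _
  have hδp0 : Tendsto (fun n => (δ n)^((2:ℝ)/3)) atTop (𝓝 0) := by
    have h := hδ0.rpow_const (p := (2:ℝ)/3) (Or.inr (by norm_num))
    rwa [Real.zero_rpow (by norm_num)] at h
  have hlp : 0 < lam := Pool.Agent.H966.N1.lam_pos
  have hev : ∀ᶠ n in atTop, lam * δ n < γ := by
    have h := hδ0.const_mul lam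
    rw [mul_zero] at h
    exact h.eventually_lt_const hγ
  have d1 : Tendsto (fun n => (g (lam * δ n) - x) / (δ n)^((2:ℝ)/3)) atTop
      (𝓝 ((lam / (2 * (α+γ+β) / (3 * Real.pi) * √(x' - x) / (x * (1 - x))))^((2:ℝ)/3))) :=
    Pool.Agent.H966.N1.disp (g := fun t : ℝ => (F t).re) hlt (by positivity)
      hlp hm1 (by
        show (F x).re = 0
        rw [hf.corner]; rfl) hL' hδ hδ0 (fun n => hg1 (lam * δ n)) (by
        filter_upwards [hev] with n hn
        rw [hg2 _ ⟨mul_pos hlp (hδ n), hn⟩]
        exact Complex.ofReal_re _)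
  have d2 : Tendsto (fun n => (x' - g (γ - lam * δ n)) / (δ n)^((2:ℝ)/3)) atTop
      (𝓝 ((lam / (2 * (α+γ+β) / (3 * Real.pi) * √(x' - x) / (x' * (1 - x'))))^((2:ℝ)/3))) :=
    Pool.Agent.H966.N1.disp' (g := fun t : ℝ => (F t).re) (G := γ) hlt (by positivity)
      hlp hm1 (by
        show (F x').re = γ
        rw [hf.corner']; exact Complex.ofReal_re _) hR' hδ hδ0 (fun n => hg1 (γ - lam * δ n)) (by
        filter_upwards [hev] with n hn
        rw [hg2 _ ⟨by linarith, by linarith [mul_pos hlp (hδ n)]⟩]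
        exact Complex.ofReal_re _)
  refine ⟨d1, d2, ?_⟩
  have c1 : (lam / (2 * (α+γ+β) / (3 * Real.pi) * √(x' - x) / (x * (1 - x))))^((2:ℝ)/3) = _ :=
    Pool.Agent.H966.N1.lam_div (p := x * (1 - x)) hN hlt (by positivity)
  have c2 : (lam / (2 * (α+γ+β) / (3 * Real.pi) * √(x' - x) / (x' * (1 - x'))))^((2:ℝ)/3) = _ :=
    Pool.Agent.H966.N1.lam_div (p := x' * (1 - x')) hN hlt (by positivity)
  rw [c1] at d1
  rw [c2] at d2
  have D : Pool.Agent.H966.N3.Disp (α+γ+β) x x' (fun n => (δ n)^((2:ℝ)/3)) (fun n => g (lam * δ n))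
      (fun n => g (γ - lam * δ n)) :=
    ⟨hN, hx1, hlt, hx2', hδp, hδp0, fun n => hg1 _, fun n => hg1 _, d1, d2⟩
  have cc : ∀ q : ℝ, Pool.Agent.NH38.Fork.cR * q * (α + γ + β)^(-(2:ℝ)/3) =
      (α + γ + β)^(-(2:ℝ)/3) / Real.Gamma (1/3) * q := fun q => by
    rw [Pool.Agent.H966.N1.cR_eq]
    ring
  -- left bank - right bank
  have sB : ∀ {K : ℝ} {b : ℕ → ℕ}, Pool.Agent.H966.N3.Wd α γ β K δ a m b →
      Sharp γ (α + γ + β) x x' g δ
        (fun n => perc.real (Pool.Agent.H966.T1.FCross1 (a n) (m n) (b n))) pBanks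
        (qBanks x x') := fun {K b} W =>
    Sharp.of (cc _) (Pool.Agent.H966.N1.rateP α γ β K hα hγ hβ δ a m b hδ hδ0 hme W.ka W.km W.kb)
      D.banks
  have sO : Sharp γ (α + γ + β) x x' g δ
        (fun n => perc.real (Pool.Agent.NH38.Fork.FCross (a n) (m n) (b n))) pOut
        (qWall x x') :=
    Sharp.of (cc _) (Pool.Agent.NH38.Fork.t_RateP Pool.Agent.NH38.Fork.a_ExactG
    (Pool.Agent.NH38.Fork.t_RateG Pool.Agent.NH38.Fork.t_MJ Pool.Agent.NH38.Fork.t_pos
      Pool.Agent.NH38.Fork.t_sE Pool.Agent.NH38.Fork.t_vE Pool.Agent.NH38.Fork.t_KE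
      Pool.Agent.NH38.Fork.t_ME (Pool.Agent.NH38.Fork.t_F4 Pool.Agent.NH38.Fork.t_WI)
      Pool.Agent.NH38.Fork.t_B4 Pool.Agent.NH38.Fork.a_FGle) α γ β K hα hγ hβ δ a m b hδ hδ0 ha hm hb)
      D.out
  have sI : Sharp γ (α + γ + β) x x' g δ
        (fun n => perc.real (Pool.Agent.H965.K3.CrossL (a n) (m n) (b n))) pIn
        (qWall x x') :=
    Sharp.of (cc _)
      (Pool.Agent.H966.N3.t_RateL α γ β K hα hγ hβ δ a m b hδ hδ0 hme ha hm hb) D.inw
  have sL : Sharp γ (α + γ + β) x x' g δ
        (fun n => perc.real (Pool.Agent.H965.K3.Cross3 (a n) (m n) (b n))) pLeft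
        (qLeft x x') := Sharp.of (cc _) W.rateLeft D.left
  have sR : Sharp γ (α + γ + β) x x' g δ
        (fun n => perc.real (Pool.Agent.H966.EX.FCrossU (a n) (m n) (b n))) pRight
        (qRight x x') := Sharp.of (cc _) W.rateRight D.right
  -- the exits
  have eL : Sharp γ (α + γ + β) x x' g δ (fun n => perc.real (ExitLeft (a n) (m n) (b n)))
      (fun u v => 1 - pRight u v) (-qRight x x') := by
    refine sR.one_sub.congr ?_
    filter_upwards [W.ev] with n hn
    exact (Pool.Agent.H966.EX.left_val hn.1 hn.2.1 (by omega)).symm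
  have eB : Sharp γ (α + γ + β) x x' g δ (fun n => perc.real (ExitBank (a n) (m n) (b n)))
      pBanks (qBanks x x') := by
    refine (sB W.pred).congr ?_
    filter_upwards [W.ev] with n hn
    obtain ⟨c, hc⟩ : ∃ c, b n = c + 1 := ⟨b n - 1, by omega⟩
    simp only [hc, Nat.add_sub_cancel]
    exact (Pool.Agent.H966.EX.bank_val hn.1 hn.2.1 (by omega)).symm
  have eR : Sharp γ (α + γ + β) x x' g δ (fun n => perc.real (ExitRight (a n) (m n) (b n)))
      (fun u v => pRight u v - pBanks u v) (qRight x x' - qBanks x x') := by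
    refine (sR.sub eB).congr ?_
    filter_upwards [W.ev] with n hn
    have h1 : perc.real (ExitLeft (a n) (m n) (b n)) + (perc.real (ExitBank (a n) (m n) (b n)) +
        perc.real (ExitRight (a n) (m n) (b n))) = 1 :=
      Pool.Agent.H966.EX.sum_one hn.1 hn.2.1 (by omega)
    have h2 : perc.real (ExitLeft (a n) (m n) (b n)) =
        1 - perc.real (Pool.Agent.H966.EX.FCrossU (a n) (m n) (b n)) :=
      Pool.Agent.H966.EX.left_val hn.1 hn.2.1 (by omega)
    linarith
  -- the events of the fork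
  have jB : ∀ a m b : ℕ, Joined a m b (Bank 0) (Bank m) = Pool.Agent.H966.T1.FCross1 a m b := by
    intro a m b
    ext ω
    constructor
    · rintro ⟨x, ⟨h1, h2⟩, y, ⟨h3, h4⟩, h5⟩
      exact ⟨x, y, h1, h2, h3, h4, h5⟩
    · rintro ⟨x, y, h1, h2, h3, h4, h5⟩
      exact ⟨x, ⟨h1, h2⟩, y, ⟨h3, h4⟩, h5⟩
  have jO : ∀ a m b : ℕ, Joined a m b (Bank 0) (Wall (m + b)) =
      Pool.Agent.NH38.Fork.FCross a m b := by
    intro a m b
    ext ω
    constructor
    · rintro ⟨x, ⟨h1, h2⟩, y, h3, h5⟩
      exact ⟨x, y, h1, h2, by push_cast; exact h3, h5⟩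
    · rintro ⟨x, y, h1, h2, h3, h5⟩
      exact ⟨x, ⟨h1, h2⟩, y, by push_cast at h3; exact h3, h5⟩
  have jI : ∀ a m b : ℕ, Joined a m b (Wall (-a)) (Bank m) = Pool.Agent.H965.K3.CrossL a m b := by
    intro a m b
    ext ω
    constructor
    · rintro ⟨x, h1, y, ⟨h3, h4⟩, h5⟩
      exact ⟨x, y, h1, h3, h4, h5⟩
    · rintro ⟨x, y, h1, h3, h4, h5⟩
      exact ⟨x, h1, y, ⟨h3, h4⟩, h5⟩
  have jL : ∀ a m b : ℕ, Joined a m b (Wall (-a) ∪ Bank 0) (Bank m) =
      Pool.Agent.H965.K3.Cross3 a m b := by
    intro a m b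
    ext ω
    constructor
    · rintro ⟨x, h1, y, ⟨h3, h4⟩, h5⟩
      exact ⟨x, y, h1, h3, h4, h5⟩
    · rintro ⟨x, y, h1, h3, h4, h5⟩
      exact ⟨x, h1, y, ⟨h3, h4⟩, h5⟩
  have jR : ∀ a m b : ℕ, Joined a m b (Bank 0) (Bank m ∪ Wall (m + b)) =
      Pool.Agent.H966.EX.FCrossU a m b := by
    intro a m b
    ext ω
    constructor
    · rintro ⟨x, ⟨h1, h2⟩, y, h3, h5⟩
      exact ⟨x, y, h1, h2, h3, h5⟩
    · rintro ⟨x, y, h1, h2, h3, h5⟩
      exact ⟨x, ⟨h1, h2⟩, y, h3, h5⟩
  simp only [jB, jO, jI, jL, jR]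
  refine ⟨eL, eB, eR, sB W, sO, sI, sL, sR, ?_, ?_⟩
  · refine ((sI.add (sB W)).sub sL).congr (Eventually.of_forall fun n => ?_)
    exact (Pool.Agent.H965.K3.inter_eq (a n) (m n) (b n)).symm
  · refine ((sO.add (sB W)).sub sR).congr (Eventually.of_forall fun n => ?_)
    exact (Pool.Agent.H966.N3.interU_eq (a n) (m n) (b n)).symm

end Pool.Agent.Results.MP_fe58d8_pr.SharpExitLaw
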